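import Pool.Agent.Run7.h524.MG.Fin
import Pool.Agent.Run7.h931.MK.Fin
import Pool.Agent.N384.MQ.Quot

/-!
# The number of primes in almost all sparse windows inside short intervals has a Gaussian law

The variance conjecture of this problem is the case of the second moment of the conjecture that the number of primes in
short intervals is normally distributed (Montgomery and Soundararajan, who derive it from a strong form of the
prime tuples conjecture). For intervals nothing is known unconditionally. Here the interval is replaced by a window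
`n + c + κ {y_1, ..., y_m}` whose `m` elements, `K log N ≤ m ≤ log ^ A N`, are chosen at random from an arbitrary
family of residues with small Fourier coefficients inside an interval of length `q ≥ N ^ (1 / 3) log ^ C N`: for all
but a proportion `N ^ (-δ)` of the choices, the number of the primes in the window of `n`, for `n` in any set of
positive density, is normally distributed with mean and variance `m (κ / φ(κ)) / log n`.

From Mathlib: `ZMod.stdAddChar`: the additive character `j ↦ exp (2 π i j / q)` of the integers modulo `q`; `ZMod.val`: the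
least residue; `ProbabilityTheory.gaussianReal 0 1`: the standard normal distribution.

Main ingredients (all proved in the repository): the primes in the windows in mean square (project MK of this run:
primes with additive characters in almost all intervals of length `x ^ (1 / 3) log ^ C x`), the inequality of
bounded differences applied to the empirical characteristic function over `n`.
-/

set_option autoImplicit false

namespace Pool.Agent.Results.MP_2a816b_nt.GaussianLawSparseWindows

open Finset

/-- The Fourier coefficients of the residues `y i`, `i ∈ s`, modulo `q` at the nonzero frequencies are at most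
`η` times the number of the residues: `|∑ i ∈ s, e(h y_i / q)| ≤ η |s|` for all `h ≠ 0` modulo `q`. -/
def Flat {ι : Type} (q : ℕ) [NeZero q] (η : ℝ) (s : Finset ι) (y : ι → ZMod q) : Prop :=
  ∀ h : ZMod q, h ≠ 0 → ‖∑ i ∈ s, (ZMod.stdAddChar (h * y i) : ℂ)‖ ≤ η * s.card

/-- The number of the primes among the `m` integers `n + c + κ y_(ω 1), ..., n + c + κ y_(ω m)`, where `ω` is a choice
of `m` elements of `s` (with the least residues `0 ≤ y_i < q`), counted with multiplicity. -/
def hits {ι : Type} {q : ℕ} (s : Finset ι) (y : ι → ZMod q) (κ c m : ℕ) (ω : Fin m → s) (n : ℕ) : ℕ :=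
  ((univ : Finset (Fin m)).filter (fun l => (n + c + κ * (y (ω l)).val).Prime)).card

/-- The expected density of the primes: `(κ / φ(κ)) / log (n + c)`. -/
noncomputable def density (κ c n : ℕ) : ℝ := κ / (Nat.totient κ : ℝ) / Real.log ((n + c : ℕ) : ℝ)

/-- The distribution function of the standard normal law. -/
noncomputable def Phi (u : ℝ) : ℝ := (ProbabilityTheory.gaussianReal 0 1).real (Set.Iic u)

open Classical in
/-- **(1)** Let `A`, `B` and `ε > 0` be fixed. There are `V`, `C`, `K` and `δ > 0` such that the following holds for all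
large `N`, all `q` with `N ^ (1 / 3) log ^ C N ≤ q ≤ N / log ^ C N`, all finite families of residues `y i`, `i ∈ s`,
modulo `q` whose Fourier coefficients at the nonzero frequencies are at most `|s| / log ^ V q`, all `1 ≤ κ ≤ B` and
`0 ≤ c ≤ B N`, all sets `J` of at least `N / B` integers `n ∈ [1, N]` with `n + c` coprime to `κ`, and all
integers `m` with `K log N ≤ m ≤ log ^ A N`: for all the choices `ω` of `m` elements of `s` with at most
`N ^ (-δ) |s| ^ m` exceptions, the proportion of the `n ∈ J` for which at most `m r_n + u √(m r_n)` of the `m` integers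
`n + c + κ y_(ω 1), ..., n + c + κ y_(ω m)` are primes, `r_n = (κ / φ(κ)) / log (n + c)`, is `Φ(u) ± ε` for all
real `u` simultaneously.

**(2)** An example of such families with only a power of `log N` members: the quotients `j / r` modulo a prime `p` of the
integers `0 ≤ j < S` by the primes `r ≤ R`, `log ^ (V + 4) p ≤ R < p`, `R ^ 2 ≤ S`. -/
theorem result :
    (∀ (A B : ℕ) (ε : ℝ), 1 ≤ B → 0 < ε → ∃ (V C K : ℕ) (δ : ℝ), 0 < δ ∧ ∃ N₀ : ℕ, ∀ N : ℕ, N₀ ≤ N →
      ∀ (q : ℕ) [NeZero q], (N : ℝ) ^ (1 / 3 : ℝ) * Real.log N ^ C ≤ q → (q : ℝ) * Real.log N ^ C ≤ N →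
      ∀ {ι : Type} (s : Finset ι) (y : ι → ZMod q), s.Nonempty → Flat q (1 / Real.log q ^ V) s y →
      ∀ κ c : ℕ, 1 ≤ κ → κ ≤ B → c ≤ B * N →
      ∀ J : Finset ℕ, J ⊆ Icc 1 N → N ≤ B * J.card → (∀ n ∈ J, (n + c).Coprime κ) →
      ∀ m : ℕ, K * Real.log N ≤ m → (m : ℝ) ≤ Real.log N ^ A →
      (((univ : Finset (Fin m → s)).filter fun ω => ¬ ∀ u : ℝ,
        |((J.filter fun n => (hits s y κ c m ω n : ℝ) ≤ m * density κ c n + u * √(m * density κ c n)).card : ℝ) / J.card -
          Phi u| ≤ ε).card : ℝ) ≤ (N : ℝ) ^ (-δ) * (s.card : ℝ) ^ m) ∧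
    (∀ V : ℕ, ∃ P₀ : ℕ, ∀ p : ℕ, P₀ ≤ p → ∀ [Fact p.Prime], ∀ R S : ℕ, Real.log p ^ (V + 4) ≤ R → R < p → R ^ 2 ≤ S →
      Flat p (1 / Real.log p ^ V) (((Icc 1 R).filter Nat.Prime) ×ˢ range S)
        (fun z => ((z.2 : ℕ) : ZMod p) * ((z.1 : ℕ) : ZMod p)⁻¹)) := by
  refine ⟨fun A B ε hB hε => ?_, fun V => ?_⟩
  · obtain ⟨V, C, K, δ, hδ, N₀, h⟩ := Pool.Agent.Run7.h524.MG.gau Pool.Agent.Run7.h931.MK.t31 A B hB ε hε
    obtain ⟨N₁, h1⟩ := Pool.Agent.Run7.h524.MG.flat_log V
    refine ⟨V + 1, C, K, δ, hδ, N₀ + N₁, fun N hN q _ hq1 hq2 ι s y hs hf κ c hκ hκB hc J hJ hJB hcop m hm1 hm2 => ?_⟩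
    have h2 := h N (by omega) q hq1 hq2 s y hs (h1 N (by omega) q C hq1 s y hf) κ c hκ hκB hc J hJ hJB hcop m hm1 hm2
    refine le_trans (Nat.cast_le.2 (card_le_card fun ω hω => ?_)) h2
    rw [mem_filter] at hω ⊢
    refine ⟨hω.1, fun h3 => hω.2 fun u => ?_⟩
    have h4 := h3 u
    unfold Pool.Agent.Run7.h524.MG.Phi Pool.Agent.Run7.h524.MG.rr at h4
    unfold hits density Phi
    convert h4
  · exact Pool.Agent.N384.MQ.flat_quot V

end Pool.Agent.Results.MP_2a816b_nt.GaussianLawSparseWindows
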