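import Pool.Agent.Run7.h285.V.All

/-!
# The number variance of the prime values of polynomials in short windows, on average over the constant terms

The polynomials `f₁, …, f_k` are fixed, of arbitrary degrees `d_l ≥ 2`, with positive leading coefficients, `L = log X`. The mean is taken
over the tuples `(a₁, …, a_k)` of constant terms, `|a_l| ≤ X`, and over the starting points `m` in an arbitrary interval of length `M` with
`M^(d_l - 1) ≥ X^(1/3) L^B` below `(X L^C)^(1/d_l)`. `N(a, m, H)` is the number of the `n`, `m < n ≤ m + H`, for which ALL the numbers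
`|f_l(n) + a_l|` are primes.
 (1) For `1 ≤ H ≤ T L^k` the variance of `N` around the number `BH · H / L^k` predicted by Bateman and Horn is `H / L^k` up to a small error: the
number variance of a Poisson process (`H = λ L^k`: variance `λ`). Here `BH` is the constant of Bateman and Horn cut at an arbitrary slowly
growing (or large constant) `y`.
 (2) For ALL `1 ≤ H ≤ L^D` and arbitrary weights `ω(n)`, `|ω| ≤ 1`, the variance around the sieve model of the primes is asymptotically the diagonal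
term `L^(-k) ∑ ∑ ω(n)²` (up to `M H² / L^U`).

Method. The second moment is a sum over `n`, `n'` of products of correlations `∑_a F(f(n) + a) F'(f(n') + a)`; with `n = m + i`, `n' = m + j`
the shift `f(m + j) - f(m + i)` is a polynomial of degree `d - 1 ≥ 1` in `m`. If `F` is the indicator function of the primes minus its sieve model
these correlations are small for almost all `m` by the law of the project MK of helper794 (Vinogradov's method and the circle method over a
thin family of shifts); a telescoping sum over the `k` factors. The diagonal term by the prime number theorem. For (1) the sieve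
model is compared with the predicted number by the fundamental lemma and the second moments of the constants (Chinese remainder theorem).
Team: helper285 (statements, assembly), helper376 (correlations of the primes), helper270 (off-diagonal terms), helper811 (diagonal terms),
helper760 (second moments of the constants), helper212, helper973, helper882, helper109 (models and fundamental lemma).
-/

set_option autoImplicit false

namespace Pool.Agent.Results.MP_2a816b_nt.NumberVariance

open Finset Filter Topology Polynomial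

/-- the box of the tuples `a` of constant terms: `|a l| ≤ X` for all `l` -/
noncomputable def Box (k X : ℕ) : Finset (Fin k → ℤ) := Fintype.piFinset (fun _ => Icc (-(X : ℤ)) X)

/-- the number of the residues `x` modulo `p` with `p | f_l(x) + a l` for some `l` -/
noncomputable def nu {k : ℕ} (f : Fin k → ℤ[X]) (a : Fin k → ℤ) (p : ℕ) : ℕ := by
  classical exact #((range p).filter (fun x : ℕ => ∃ l, (p : ℤ) ∣ (f l).eval (x : ℤ) + a l))

/-- the constant of Bateman and Horn, cut at `y`: the product of `(1 - ν(p) / p) / (1 - 1 / p)^k` over the primes `p ≤ y` -/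
noncomputable def BH {k : ℕ} (f : Fin k → ℤ[X]) (a : Fin k → ℤ) (y : ℕ) : ℝ :=
  ∏ p ∈ (range (y + 1)).filter Nat.Prime, (1 - (nu f a p : ℝ) / p) / (1 - 1 / (p : ℝ)) ^ k

/-- the number of `n` with `m < n ≤ m + H` such that all the numbers `|f_l(n) + a l|` are primes -/
def P {k : ℕ} (f : Fin k → ℤ[X]) (a : Fin k → ℤ) (m H : ℕ) : ℕ :=
  #((Ioc m (m + H)).filter (fun n : ℕ => ∀ l, Nat.Prime ((f l).eval (n : ℤ) + a l).natAbs))

/-- the indicator function of the primes -/
noncomputable def prime (v : ℕ) : ℝ := if v.Prime then 1 else 0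

/-- the primes `p ≤ z` -/
def primesTo (z : ℕ) : Finset ℕ := (Icc 1 z).filter Nat.Prime

/-- the product of `1 - 1 / p` over the primes `p ≤ z` -/
noncomputable def V (z : ℕ) : ℝ := ∏ p ∈ primesTo z, (1 - 1 / (p : ℝ))

/-- the sieve model of the primes: `1 / (V(z) log v)` if no prime `p ≤ z` divides `v`, and `0` otherwise -/
noncomputable def model (z v : ℕ) : ℝ := (if ∀ p ∈ primesTo z, ¬ p ∣ v then (V z)⁻¹ else 0) * (1 / Real.log v)

lemma model_eq (z : ℕ) (v : ℤ) : model z v.natAbs = Run7.h285.S.vv z v := rfl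

lemma prime_eq (v : ℤ) : prime v.natAbs = Run7.h285.S.uu v := rfl

/-- **The number variance of the prime values of polynomials on average over the constant terms.** Let `k ≥ 1` and let `f_1, …, f_k` be integer
polynomials of degrees `d_l ≥ 2` with positive leading coefficients.
(1) For all `ε, T > 0` there is `y₀` such that for every `C` there are `B` and `X₀` with the following property for all `X ≥ X₀`. Let `m₀`, `M`, `y`, `H`
be such that `X^(1/3) (log X)^B ≤ M^(d_l - 1)` and `(m₀ + M)^(d_l) ≤ X (log X)^C` for all `l`, `y ≥ y₀`, `y² ≤ log X` and `1 ≤ H ≤ T (log X)^k`. The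
sum over all pairs `(a, m)`, `|a l| ≤ X`, `m₀ < m ≤ m₀ + M`, of the squares of `P f a m H - BH f a y · H / (log X)^k` is
`(2 X)^k M · (H / (log X)^k)` up to an error of at most `ε (2 X)^k M`.
(2) For every `ε > 0` and all `U`, `C`, `D` there is `E₁` such that for every `E ≥ E₁` there are `B` and `X₀` with the following property for all
`X ≥ X₀`, `z = ⌊(log X)^E⌋`, all `m₀`, `M` as in (1) and all `1 ≤ H ≤ (log X)^D` and all weights `ω`, `|ω(n)| ≤ 1`: the sum over all pairs `(a, m)` of the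
squares of `∑_{m < n ≤ m + H} ω(n) (∏_l prime |f_l(n) + a l| - ∏_l model z |f_l(n) + a l|)` is `(2 X / log X)^k S`, `S = ∑_m ∑_{m < n ≤ m + H} ω(n)²`,
up to an error of at most `(2 X)^k (ε S / (log X)^k + M H² / (log X)^U)`. -/
theorem result : ∀ (k : ℕ) (f : Fin k → ℤ[X]), 1 ≤ k → (∀ l, 2 ≤ (f l).natDegree ∧ 0 < (f l).leadingCoeff) →
    (∀ ε T : ℝ, 0 < ε → 0 < T → ∃ y₀ : ℕ, ∀ C : ℕ, ∃ B X₀ : ℕ, ∀ X : ℕ, X₀ ≤ X →
      ∀ m₀ M : ℕ, (∀ l, (X : ℝ) ^ (1 / 3 : ℝ) * Real.log X ^ B ≤ (M : ℝ) ^ ((f l).natDegree - 1)) →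
      (∀ l, ((m₀ : ℝ) + M) ^ (f l).natDegree ≤ X * Real.log X ^ C) →
      ∀ y : ℕ, y₀ ≤ y → (y : ℝ) ^ 2 ≤ Real.log X → ∀ H : ℕ, 1 ≤ H → (H : ℝ) ≤ T * Real.log X ^ k →
        |∑ a ∈ Box k X, ∑ m ∈ Ioc m₀ (m₀ + M), ((P f a m H : ℝ) - BH f a y * (H / Real.log X ^ k)) ^ 2 -
          (2 * X : ℝ) ^ k * M * (H / Real.log X ^ k)| ≤ ε * ((2 * X : ℝ) ^ k * M)) ∧
    (∀ (ε : ℝ) (U C D : ℕ), 0 < ε → ∃ E₁ : ℕ, ∀ E : ℕ, E₁ ≤ E → ∃ B X₀ : ℕ, ∀ X : ℕ, X₀ ≤ X →
      ∀ m₀ M H : ℕ, 1 ≤ H → (H : ℝ) ≤ Real.log X ^ D →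
      (∀ l, (X : ℝ) ^ (1 / 3 : ℝ) * Real.log X ^ B ≤ (M : ℝ) ^ ((f l).natDegree - 1)) →
      (∀ l, ((m₀ : ℝ) + M) ^ (f l).natDegree ≤ X * Real.log X ^ C) → ∀ ω : ℕ → ℝ, (∀ n, |ω n| ≤ 1) →
        |∑ a ∈ Box k X, ∑ m ∈ Ioc m₀ (m₀ + M), (∑ n ∈ Ioc m (m + H), ω n *
            (∏ l, prime ((f l).eval (n : ℤ) + a l).natAbs - ∏ l, model ⌊Real.log X ^ E⌋₊ ((f l).eval (n : ℤ) + a l).natAbs)) ^ 2 -
          (2 * X / Real.log X) ^ k * ∑ m ∈ Ioc m₀ (m₀ + M), ∑ n ∈ Ioc m (m + H), ω n ^ 2| ≤
          (2 * X : ℝ) ^ k * (ε * (∑ m ∈ Ioc m₀ (m₀ + M), ∑ n ∈ Ioc m (m + H), ω n ^ 2) / Real.log X ^ k +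
            M * (H : ℝ) ^ 2 / Real.log X ^ U)) := by
  intro k f hk hf
  refine ⟨?_, ?_⟩
  · intro ε T hε hT
    obtain ⟨y₀, h1⟩ := Run7.h285.V.v2_all f hk hf ε T hε hT
    refine ⟨y₀, fun C => ?_⟩
    obtain ⟨B, X₀, h2⟩ := h1 C
    exact ⟨B, X₀, fun X hX m₀ M hM hW y hy hyl H hH hHT => h2 X hX m₀ M hM hW y hy hyl H hH hHT⟩
  · intro ε U C D hε
    obtain ⟨E₁, h1⟩ := Run7.h285.V.v1_all f hk hf ε U C D hε
    refine ⟨E₁, fun E hE => ?_⟩
    obtain ⟨B, X₀, h2⟩ := h1 E hE
    refine ⟨B, X₀, fun X hX m₀ M H hH hHD hM hW ω hω => ?_⟩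
    have h3 := h2 X hX m₀ M H hH hHD hM hW ω hω
    unfold Run7.h285.G.MM Run7.h285.G.pr at h3
    simp only [model_eq, prime_eq]
    exact h3

end Pool.Agent.Results.MP_2a816b_nt.NumberVariance
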