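import Pool.Agent.Run7.h364.MK.Var4
import Pool.Agent.Run7.h794.MK.All

/-!
# The variance of the primes in sparse windows

For almost all members `d` of every thin family with small exponential sums, the variance over `n ≤ N` of the number
of primes (weighted by the von Mangoldt function) among `n + d, n + 2d, …, n + md` is given by the Hardy-Littlewood
main term, for all `m ≤ log^A N` at once, with an error `N / log^U N`.
-/

set_option autoImplicit false

namespace Pool.Agent.Results.MP_2a816b_nt.SparseVariance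

open Finset

/-- The twin prime constant: the infimum (which is the limit) over `z` of the product over the primes `3 ≤ p ≤ z` of
`1 - 1/(p-1)^2`. -/
noncomputable def twinConstant : ℝ :=
  ⨅ z : ℕ, ∏ p ∈ (Icc 3 z).filter Nat.Prime, (1 - 1 / ((p : ℝ) - 1) ^ 2)

/-- The singular series of the pair `0, h` for `h ≥ 1`: zero for odd `h`, and twice the twin prime constant times the
product over the primes `p > 2` dividing `h` of `(p-1)/(p-2)` for even `h`. -/
noncomputable def singularSeries (h : ℕ) : ℝ :=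
  if Even h then 2 * twinConstant * ∏ p ∈ h.primeFactors.filter (fun p => 2 < p), (((p : ℝ) - 1) / (p - 2)) else 0

/-- A finite family of integers `d i`, `i ∈ s`, is `η`-flat modulo `q` if every nontrivial exponential sum modulo `q`
over the family is at most `η` times the number of its members. -/
def FlatFamily {ι : Type} (q : ℕ) (η : ℝ) (s : Finset ι) (d : ι → ℕ) : Prop :=
  ∀ h : ℤ, ¬ ((q : ℤ) ∣ h) →
    ‖∑ i ∈ s, Complex.exp (2 * Real.pi * Complex.I * (h * (d i : ℂ)) / q)‖ ≤ η * s.card

/-- The weighted number of primes in the window `n + d, n + 2 d, …, n + m d`. -/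
noncomputable def window (d m n : ℕ) : ℝ := ∑ j ∈ Icc 1 m, ArithmeticFunction.vonMangoldt (n + j * d)

/-- Its expected value: `m d / φ(d)` if `n` is coprime to `d`, and zero if it is not. -/
noncomputable def expected (d m n : ℕ) : ℝ := if n.Coprime d then (m : ℝ) * (d / Nat.totient d) else 0

/-- The sum over `n ≤ N` of the squared deviations. -/
noncomputable def variance (N d m : ℕ) : ℝ := ∑ n ∈ Icc 1 N, (window d m n - expected d m n) ^ 2

/-- The main term. -/
noncomputable def mainTerm (N d m : ℕ) : ℝ :=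
  N * (m * (Real.log N - 1) + 2 * ∑ κ ∈ Ico 1 m, ((m : ℝ) - κ) * singularSeries (κ * d) -
    (m : ℝ) ^ 2 * (d / Nat.totient d))

/-- **The variance of the primes in sparse windows.** -/
theorem result (A U : ℕ) : ∃ V C N₀ : ℕ, ∀ N q : ℕ, N₀ ≤ N →
    (N : ℝ) ^ (1 / 3 : ℝ) * Real.log N ^ C ≤ q → (q : ℝ) * Real.log N ^ C ≤ N →
    ∀ (ι : Type) (s : Finset ι) (d : ι → ℕ), s.Nonempty → (∀ i ∈ s, d i < q) →
    FlatFamily q (1 / Real.log N ^ V) s d →
    ∃ E : Finset ι, E ⊆ s ∧ (E.card : ℝ) ≤ s.card / Real.log N ^ U ∧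
      ∀ i ∈ s, i ∉ E → 1 ≤ d i ∧ ∀ m : ℕ, (m : ℝ) ≤ Real.log N ^ A →
        |variance N (d i) m - mainTerm N (d i) m| ≤ N / Real.log N ^ U := by
  classical
  obtain ⟨V, C, N₀, h⟩ := Pool.Agent.Run7.h364.MK.VR.flat_var Pool.Agent.Run7.h794.MK.law_all A U
  refine ⟨V, C, N₀ + 3, fun N q hN h1 h2 ι s d hs hd hf => ?_⟩
  have hlog : 1 ≤ Real.log N := by
    rw [Real.le_log_iff_exp_le (by exact_mod_cast (by omega : 0 < N))]
    have h3 : (3 : ℝ) ≤ N := by exact_mod_cast (by omega : 3 ≤ N)
    linarith [Real.exp_one_lt_d9]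
  have hN0 : (0 : ℝ) < N := by exact_mod_cast (by omega : 0 < N)
  have hq0 : (0 : ℝ) < q := lt_of_lt_of_le (by positivity) h1
  have hq : q ≠ 0 := by
    rintro rfl
    simp at hq0
  have : NeZero q := ⟨hq⟩
  have hflat : Pool.Agent.N384.MQ.Flat q (1 / Real.log N ^ V) s (fun i => (d i : ZMod q)) := by
    intro x hx
    have h4 := hf (x.val : ℤ) (by
      intro hdvd
      apply hx
      have h5 : ((x.val : ℤ) : ZMod q) = 0 := (ZMod.intCast_zmod_eq_zero_iff_dvd _ _).2 hdvd
      rw [← h5]
      simp)
    refine le_trans (le_of_eq ?_) h4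
    congr 1
    refine sum_congr rfl fun i _ => ?_
    have h6 : x * (d i : ZMod q) = (((x.val : ℤ) * (d i : ℤ) : ℤ) : ZMod q) := by
      push_cast
      simp
    rw [h6, ZMod.stdAddChar_coe]
    push_cast
    rfl
  have key := h N (by omega) q ι s (fun i => (d i : ZMod q)) hs h1 h2 hflat
  refine ⟨s.filter (fun i => ¬ Pool.Agent.Run7.h364.MK.VR.GoodD A U N ((d i : ZMod q)).val), filter_subset _ _, ?_,
    fun i hi hE => ?_⟩
  · convert key using 3
  · rw [mem_filter, not_and, not_not] at hE
    have h7 := hE hi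
    rw [ZMod.val_cast_of_lt (hd i hi)] at h7
    exact h7

end Pool.Agent.Results.MP_2a816b_nt.SparseVariance
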