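import Pool.Agent.Run7.h673.SP.Var

/-!
# The variance of the primes in the windows `n + d, n + 2 d, …, n + m d`, `d = ⌊exp (φ (log k))⌋`

For almost all `k` in a range of a function `f t = exp (φ (log t))` which grows faster than all polynomials, for instance
`φ y = γ y ^ β` with `1 < β < 3 / 2`, the variance over `n ≤ N` of the number of primes (weighted by the von Mangoldt
function) among `n + d, n + 2 d, …, n + m d`, `d = ⌊f k⌋`, is given by the Hardy-Littlewood main term, for all
`m ≤ log ^ A N` at once, with an error `N / log ^ U N`. The values `f k` may be as small as `N ^ (1/3) log ^ C N`.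

From Mathlib: `ContDiffAt ℝ ⊤`: infinitely differentiable at a point; `iteratedDeriv m f`: the derivative of order `m`;
`⌊y⌋₊`: the integer part of `y ≥ 0`; `ArithmeticFunction.vonMangoldt`: the von Mangoldt function; `Nat.totient`: Euler's
function; `⨅`: the infimum.

Method: the exponential sums over the integer parts of `exp (φ (log k))`, `y < k ≤ x`, are small at all frequencies with a
distance of at least `log ^ A / exp (φ (log y))` from the integers (Vinogradov's method of bilinear exponential sums with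
the mean value theorem in the form of a starting file; files `Pool.Agent.Run7.h673.SP`). By project MK of this run (helper794,
helper880 and others) such exponential sums suffice for the pair correlations, uniformly for multiples up to powers of
`log N` of the shift. The passage from pair correlations to the variance is from files of helper364.
-/

set_option autoImplicit false

namespace Pool.Agent.Results.MP_2a816b_nt.SuperpolynomialVariance

open Finset

/-- The conditions on `φ` for the growth of `f t = exp (φ (log t))`: for some `δ > 0`, `K` and `L₀` and all `y > L₀` the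
function `φ` is infinitely differentiable at `y`, `φ y > 0`, `(1 + δ) φ y ≤ y φ' y`, `φ y ≤ y ^ (3 / 2 - δ)`, and
`|φ⁽ᵐ⁾ y| ≤ m! φ y (K / y) ^ m` for all `m ≥ 1`. -/
def Rapid (φ : ℝ → ℝ) : Prop :=
  ∃ δ K L₀ : ℝ, 0 < δ ∧ ∀ y > L₀, ContDiffAt ℝ ((⊤ : ℕ∞) : WithTop ℕ∞) φ y ∧ 0 < φ y ∧
    (1 + δ) * φ y ≤ y * deriv φ y ∧ φ y ≤ y ^ (3 / 2 - δ) ∧
    ∀ m : ℕ, 1 ≤ m → |iteratedDeriv m φ y| ≤ m.factorial * φ y * (K / y) ^ m

/-- `(y, x]` is a range of length at least `x / log ^ a N` in which `f t = exp (φ (log t))` has values between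
`N ^ (1/3) log ^ C N` and `N / log ^ C N`: `y < x`, `x ≤ log ^ a N (x - y)`, `N ^ (1/3) log ^ C N ≤ f y` and
`f x log ^ C N ≤ N`. -/
def Range (φ : ℝ → ℝ) (a C N x y : ℕ) : Prop :=
  y < x ∧ (x : ℝ) ≤ Real.log N ^ a * ((x : ℝ) - y) ∧
    (N : ℝ) ^ (1 / 3 : ℝ) * Real.log N ^ C ≤ Real.exp (φ (Real.log y)) ∧ Real.exp (φ (Real.log x)) * Real.log N ^ C ≤ N

/-- The twin prime constant: the infimum (which is the limit) over `z` of the product over the primes `3 ≤ p ≤ z` of
`1 - 1/(p-1)^2`. -/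
noncomputable def twinConstant : ℝ :=
  ⨅ z : ℕ, ∏ p ∈ (Icc 3 z).filter Nat.Prime, (1 - 1 / ((p : ℝ) - 1) ^ 2)

/-- The singular series of the pair `0, h` for `h ≥ 1`: zero for odd `h`, and twice the twin prime constant times the
product over the primes `p > 2` dividing `h` of `(p-1)/(p-2)` for even `h`. -/
noncomputable def singularSeries (h : ℕ) : ℝ :=
  if Even h then 2 * twinConstant * ∏ p ∈ h.primeFactors.filter (fun p => 2 < p), (((p : ℝ) - 1) / (p - 2)) else 0

/-- The weighted number of primes in the window `n + d, n + 2 d, …, n + m d`. -/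
noncomputable def window (d m n : ℕ) : ℝ := ∑ j ∈ Icc 1 m, ArithmeticFunction.vonMangoldt (n + j * d)

/-- Its expected value: `m d / φ(d)` if `n` is coprime to `d`, and zero if it is not. -/
noncomputable def expected (d m n : ℕ) : ℝ := if n.Coprime d then (m : ℝ) * (d / Nat.totient d) else 0

/-- The sum over `n ≤ N` of the squared deviations. -/
noncomputable def variance (N d m : ℕ) : ℝ := ∑ n ∈ Icc 1 N, (window d m n - expected d m n) ^ 2

/-- The main term. -/
noncomputable def mainTerm (N d m : ℕ) : ℝ :=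
  N * (m * (Real.log N - 1) + 2 * ∑ κ ∈ Ico 1 m, ((m : ℝ) - κ) * singularSeries (κ * d) -
    (m : ℝ) ^ 2 * (d / Nat.totient d))

/-- **(1)** Let `φ` satisfy the conditions `Rapid` and let `a`, `A`, `U` be fixed. There is `C` such that for all large `N`,
all ranges `(y, x]` (`Range`: the values `exp (φ (log k))` are between `N ^ (1/3) log ^ C N` and `N / log ^ C N`, and
`x - y ≥ x / log ^ a N`) and all `k` in `(y, x]`, with at most `(x - y) / log ^ U N` exceptions: with
`d = ⌊exp (φ (log k))⌋ ≥ 1`, for ALL `m ≤ log ^ A N` the variance over `n ≤ N` of the weighted number of primes among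
`n + d, n + 2 d, …, n + m d` around its expected value is the main term with an error of at most `N / log ^ U N`.

**(2)** Let `φ` satisfy the conditions `Rapid`, `η > 0`, `C`. For all large `N` and all `X` with
`N ^ (1/3 + η) ≤ exp (φ (log X))` and `exp (φ (log X)) log ^ C N ≤ N` the interval `(⌊X / 2⌋, X]` is a range (`a = 1`).

**(3)** The functions `φ y = γ y ^ β` with `γ > 0` and `1 < β < 3 / 2` satisfy the conditions `Rapid`. -/
theorem result :
    (∀ φ : ℝ → ℝ, Rapid φ → ∀ a A U : ℕ, ∃ C N₀ : ℕ, ∀ N : ℕ, N₀ ≤ N → ∀ x y : ℕ, Range φ a C N x y →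
      ∃ E : Finset ℕ, (E.card : ℝ) ≤ ((x : ℝ) - y) / Real.log N ^ U ∧ ∀ k : ℕ, y < k → k ≤ x → k ∉ E →
        1 ≤ ⌊Real.exp (φ (Real.log k))⌋₊ ∧
        ∀ m : ℕ, (m : ℝ) ≤ Real.log N ^ A →
          |variance N ⌊Real.exp (φ (Real.log k))⌋₊ m - mainTerm N ⌊Real.exp (φ (Real.log k))⌋₊ m| ≤
            N / Real.log N ^ U) ∧
    (∀ φ : ℝ → ℝ, Rapid φ → ∀ η : ℝ, 0 < η → ∀ C : ℕ, ∃ N₀ : ℕ, ∀ N : ℕ, N₀ ≤ N → ∀ X : ℕ,
      (N : ℝ) ^ (1 / 3 + η) ≤ Real.exp (φ (Real.log X)) → Real.exp (φ (Real.log X)) * Real.log N ^ C ≤ N →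
      Range φ 1 C N X (X / 2)) ∧
    (∀ γ β : ℝ, 0 < γ → 1 < β → β < 3 / 2 → Rapid (fun y => γ * y ^ β)) := by
  classical
  refine ⟨fun φ hφ a A U => ?_, fun φ hφ η hη C => ?_,
    fun γ β h1 h2 h3 => Pool.Agent.Run7.h673.SP.rapid_pow γ β h1 h2 h3⟩
  · have hφ' : Pool.Agent.Run7.h673.SP.Rapid φ := hφ
    obtain ⟨δ, C', L₀, hf⟩ := hφ'.fast
    obtain ⟨C, N₀, h⟩ := hf.varv a A U
    obtain ⟨N₁, h1⟩ := Filter.eventually_atTop.1 (Pool.Agent.N384.MQ.ev_log_ge 1)
    refine ⟨C, N₀ + N₁, fun N hN x y hr => ?_⟩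
    obtain ⟨r1, r2, r3, r4⟩ := hr
    have hr' : Pool.Agent.Run7.h673.SP.Rgt φ a C N x y := by
      refine ⟨r1, ?_, r3, r4⟩
      rw [Nat.cast_sub r1.le]
      exact r2
    have key := h N (by omega) x y hr'
    rw [Nat.cast_sub r1.le] at key
    refine ⟨(Ioc y x).filter (fun k => ¬ Pool.Agent.Run7.h364.MK.VR.GoodD A U N (Pool.Agent.Run7.h673.SP.val φ k)), ?_,
      fun k hk1 hk2 hE => ?_⟩
    · refine le_trans (le_of_eq ?_) key
      congr 2
    · rw [mem_filter, not_and, not_not] at hE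
      exact hE (mem_Ioc.2 ⟨hk1, hk2⟩)
  · have hφ' : Pool.Agent.Run7.h673.SP.Rapid φ := hφ
    obtain ⟨δ, C', L₀, hf⟩ := hφ'.fast
    obtain ⟨N₀, h0⟩ := hf.half η hη C 1
    obtain ⟨N₃, h3⟩ := Filter.eventually_atTop.1 (Pool.Agent.N384.MQ.ev_log_ge 1)
    refine ⟨N₀ + N₃, fun N hN X h1 h2 => ?_⟩
    have hL := h3 N (by omega)
    obtain ⟨e1, e2, e3, e4⟩ := h0 N (by omega) X h1 (by
      rw [Nat.cast_one, one_mul]
      refine le_trans ?_ h2
      exact le_mul_of_one_le_right (Real.exp_pos _).le (one_le_pow₀ hL))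
    refine ⟨e1, ?_, e3, h2⟩
    rw [Nat.cast_sub e1.le] at e2
    exact e2

end Pool.Agent.Results.MP_2a816b_nt.SuperpolynomialVariance
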